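import Pool.Agent.N936.TC.Stm

/-!
# Project TC (helper936), part KCONN: the second continuum is connected
-/

set_option autoImplicit false

namespace Pool.Agent.N952.TC

open Set Topology Pool.Agent.N936.TC

/-- reversed edges -/
private noncomputable def rev {X : Type} (σ : Bool → Q ≃ₜ Q) (Φ : Q × Bool × I → X) :
    Q × Bool × I → X :=
  fun p => Φ ((σ p.2.1).symm p.1, p.2.1, unitInterval.symm p.2.2)

private theorem rev_apply {X : Type} (σ : Bool → Q ≃ₜ Q) (Φ : Q × Bool × I → X) (q : Q) (i : Bool)
    (s : I) : rev σ Φ (q, i, s) = Φ ((σ i).symm q, i, unitInterval.symm s) := rfl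

private theorem rev_cont {X : Type} [TopologicalSpace X] (σ : Bool → Q ≃ₜ Q)
    (Φ : Q × Bool × I → X) (hc : Continuous Φ) : Continuous (rev σ Φ) := by
  have h1 : Continuous (fun p : Bool × Q => (σ p.1).symm p.2) := by
    rw [continuous_prod_of_discrete_left]
    intro i
    exact (σ i).symm.continuous
  have h2 : Continuous (fun p : Q × Bool × I => (σ p.2.1).symm p.1) :=
    h1.comp ((continuous_fst.comp continuous_snd).prodMk continuous_fst)
  refine hc.comp (h2.prodMk ((continuous_fst.comp continuous_snd).prodMk ?_))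
  exact unitInterval.continuous_symm.comp (continuous_snd.comp continuous_snd)

private theorem kset_eq {X : Type} (σ : Bool → Q ≃ₜ Q) (Φ : Q × Bool × I → X) :
    Kset Φ = Wset (rev σ Φ) := by
  ext z
  constructor
  · rintro ⟨q, i, s, r, j, t, h, rfl⟩
    refine ⟨σ i q, i, unitInterval.symm s, σ j r, j, unitInterval.symm t, ?_, ?_⟩
    · rw [unitInterval.coe_symm_eq, unitInterval.coe_symm_eq]
      exact h
    · rw [rev_apply, rev_apply, Homeomorph.symm_apply_apply, Homeomorph.symm_apply_apply,
        unitInterval.symm_symm, unitInterval.symm_symm]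
  · rintro ⟨q, i, s, r, j, t, h, rfl⟩
    refine ⟨(σ i).symm q, i, unitInterval.symm s, (σ j).symm r, j, unitInterval.symm t, ?_, ?_⟩
    · rw [unitInterval.coe_symm_eq, unitInterval.coe_symm_eq, sub_sub_cancel, sub_sub_cancel]
      exact h
    · rw [rev_apply, rev_apply]

theorem t_kconn (hW : S_WCONN) : S_KCONN := by
  intro σ X _ _ Φ hc hb ht hT
  rw [kset_eq σ Φ]
  have h0 : ∀ q i, rev σ Φ (q, i, 0) = Φ (q, false, 0) := by
    intro q i
    rw [rev_apply, unitInterval.symm_zero, ht _ i false, Homeomorph.apply_symm_apply]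
  refine hW (fun i => (σ i).symm) X (rev σ Φ) (rev_cont σ Φ hc) ?_ ?_ ?_
  · intro q i j
    rw [h0, h0]
  · intro q i j
    rw [h0, rev_apply, unitInterval.symm_one]
    exact hb _ _ _
  · intro D hD h
    refine hT D hD fun i q => ?_
    have h1 := h i (σ i q)
    simp only [Homeomorph.symm_apply_apply] at h1
    exact h1.symm

end Pool.Agent.N952.TC
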